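import Pool.Agent.Helper19.GH.Tree

/-!
# Trees with a vertex adjacent to many leaves decompose `K_{n,n}`
-/

namespace Pool.Agent.Results.MP_2fbe9b_co.LargeStar

open Finset Pool.Agent.Helper19.GH

variable {V : Type} [Fintype V] [DecidableEq V]

/-- Abstract form. -/
lemma aux (T : SimpleGraph V) [DecidableRel T.Adj] (hT : T.IsTree) (n t : ℕ)
    (hn : Fintype.card V = n + 1) (v : V)
    (ht : (univ.filter fun x => T.Adj v x ∧ T.degree x = 1).card + t = n) (D : ℕ)
    (hD : ∀ x, x ≠ v → Even (T.dist v x) → T.degree x ≤ D)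
    (hb : t * (1 + 2 * ∑ j ∈ Icc 1 D, Nat.gcd j n) < n) :
    Decomposes T (completeBipartiteGraph (Fin n) (Fin n)) := by
  classical
  have hn0 : n ≠ 0 := by omega
  have : NeZero n := ⟨hn0⟩
  obtain ⟨par, hpar, hedge⟩ := exists_par T hT v
  set L := univ.filter fun x => T.Adj v x ∧ T.degree x = 1 with hLdef
  have hL : ∀ x ∈ L, x ≠ v ∧ par x = v ∧ ∀ y, y ≠ v → par y ≠ x := by
    intro x hx
    rw [hLdef, mem_filter] at hx
    obtain ⟨_, h1, h2⟩ := hx
    have h3 : x ≠ v := h1.ne'
    have h4 : T.neighborFinset x = {v} := by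
      obtain ⟨w, hw⟩ := card_eq_one.1 h2
      have h5 : v ∈ T.neighborFinset x := by
        rw [SimpleGraph.mem_neighborFinset]
        exact h1.symm
      rw [hw, mem_singleton] at h5
      rw [hw, h5]
    have h6 : ∀ y, T.Adj x y → y = v := by
      intro y hy
      rw [← SimpleGraph.mem_neighborFinset, h4, mem_singleton] at hy
      exact hy
    refine ⟨h3, h6 _ (hpar x h3).1, ?_⟩
    intro y hy h7
    have h8 := (hpar y hy).1
    rw [h7] at h8
    exact hy (h6 y h8.symm)
  obtain ⟨F, hF1, hF2⟩ := labelling (n := n) (v := v) (par := par) (d := fun x => T.dist v x)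
    (L := L) (D := D) (t := t) SimpleGraph.dist_self (fun x hx => (hpar x hx).2) hn hL (by
      intro a ha hae
      refine le_trans ?_ (hD a ha hae)
      have h1 : insert (par a) (univ.filter fun y : V => y ≠ v ∧ par y = a) ⊆
          T.neighborFinset a := by
        intro y hy
        rw [SimpleGraph.mem_neighborFinset]
        rcases mem_insert.1 hy with rfl | hy
        · exact (hpar a ha).1
        · rw [mem_filter] at hy
          have h2 := (hpar y hy.2.1).1
          rw [hy.2.2] at h2
          exact h2.symm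
      have h3 : par a ∉ (univ.filter fun y : V => y ≠ v ∧ par y = a) := by
        rw [mem_filter]
        rintro ⟨_, h4, h5⟩
        have h6 := (hpar a ha).2
        have h7 := (hpar (par a) h4).2
        rw [h5] at h7
        omega
      have h4 := card_le_card h1
      rw [card_insert_of_notMem h3, SimpleGraph.card_neighborFinset_eq_degree] at h4
      exact h4) ht hb
  exact decomposes_of_labelling T v par (fun x => T.dist v x) hn hpar hedge F hF1 hF2

/-- The degrees at the vertices of even distance from `v` are smaller than `t`. -/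
lemma degree_lt (T : SimpleGraph V) [DecidableRel T.Adj] (n t : ℕ)
    (hn : Fintype.card V = n + 1) (v : V)
    (ht : (univ.filter fun x => T.Adj v x ∧ T.degree x = 1).card + t = n) (x : V) (hx : x ≠ v)
    (hxe : Even (T.dist v x)) : T.degree x < t := by
  classical
  set L := univ.filter fun x => T.Adj v x ∧ T.degree x = 1 with hLdef
  have hLsub : L ⊆ (univ : Finset V).erase v := by
    intro y hy
    rw [hLdef, mem_filter] at hy
    exact mem_erase.2 ⟨hy.2.1.ne', mem_univ _⟩
  have hxv : ¬ T.Adj v x := by
    intro h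
    have h1 : T.dist v x = 1 := SimpleGraph.dist_eq_one_iff_adj.2 h
    rw [h1] at hxe
    exact (by decide : ¬ Even 1) hxe
  have h1 : insert x (T.neighborFinset x) ⊆ ((univ : Finset V).erase v) \ L := by
    intro y hy
    rw [mem_sdiff, mem_erase]
    rcases mem_insert.1 hy with rfl | hy
    · refine ⟨⟨hx, mem_univ _⟩, ?_⟩
      rw [hLdef, mem_filter]
      rintro ⟨_, h, _⟩
      exact hxv h
    · rw [SimpleGraph.mem_neighborFinset] at hy
      refine ⟨⟨?_, mem_univ _⟩, ?_⟩
      · rintro rfl
        exact hxv hy.symm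
      · rw [hLdef, mem_filter]
        rintro ⟨_, h2, h3⟩
        obtain ⟨w, hw⟩ := card_eq_one.1 h3
        have h5 : v ∈ T.neighborFinset y := by
          rw [SimpleGraph.mem_neighborFinset]
          exact h2.symm
        have h6 : x ∈ T.neighborFinset y := by
          rw [SimpleGraph.mem_neighborFinset]
          exact hy.symm
        rw [hw, mem_singleton] at h5 h6
        exact hx (h6.trans h5.symm)
  have h2 := card_le_card h1
  have h3 : x ∉ T.neighborFinset x := by simp
  rw [card_insert_of_notMem h3, SimpleGraph.card_neighborFinset_eq_degree,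
    card_sdiff_of_subset hLsub, card_erase_of_mem (mem_univ v), card_univ, hn] at h2
  omega

/-- Let `T` be a tree with `n` edges, `v` a vertex, and let all but `t` of the `n` edges of `T` be
pendant edges at `v`. The tree `T` decomposes `K_{n,n}` in each of the following cases:
(1) `t (1 + 2 ∑_{j ≤ D} gcd (j, n)) < n`, where `D` is a bound for the degrees of the vertices
`x ≠ v` at even distance from `v`; (2) `t ^ 3 < n`; (3) `n` is a prime number and
`2 t ^ 2 ≤ n`. -/
theorem result (T : SimpleGraph V) [DecidableRel T.Adj] (hT : T.IsTree) (n t : ℕ)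
    (hn : Fintype.card V = n + 1) (v : V)
    (ht : (univ.filter fun x => T.Adj v x ∧ T.degree x = 1).card + t = n) :
    (∀ D : ℕ, (∀ x, x ≠ v → Even (T.dist v x) → T.degree x ≤ D) →
      t * (1 + 2 * ∑ j ∈ Icc 1 D, Nat.gcd j n) < n →
      Decomposes T (completeBipartiteGraph (Fin n) (Fin n))) ∧
    (t ^ 3 < n → Decomposes T (completeBipartiteGraph (Fin n) (Fin n))) ∧
    (n.Prime → 2 * t ^ 2 ≤ n → Decomposes T (completeBipartiteGraph (Fin n) (Fin n))) := by
  refine ⟨fun D hD hb => aux T hT n t hn v ht D hD hb, fun h => ?_, fun hp h => ?_⟩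
  · have hdeg : ∀ x, x ≠ v → Even (T.dist v x) → T.degree x ≤ t - 1 := fun x hx hxe => by
      have := degree_lt T n t hn v ht x hx hxe
      omega
    refine aux T hT n t hn v ht (t - 1) hdeg (lt_of_le_of_lt ?_ h)
    rcases Nat.eq_zero_or_pos t with h0 | h0
    · rw [h0]
      simp
    · have h1 : ∑ j ∈ Icc 1 (t - 1), Nat.gcd j n ≤ ∑ j ∈ Icc 1 (t - 1), j :=
        sum_le_sum fun j hj => Nat.gcd_le_left n (by have := (mem_Icc.1 hj).1; omega)
      have h2 : (∑ j ∈ Icc 1 (t - 1), j) * 2 = t * (t - 1) := by
        have h3 : ∑ j ∈ Icc 1 (t - 1), j = ∑ j ∈ range t, j := by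
          refine sum_subset ?_ ?_
          · intro x hx
            rw [mem_Icc] at hx
            rw [mem_range]
            omega
          · intro x hx hx2
            rw [mem_range] at hx
            rw [mem_Icc] at hx2
            omega
        rw [h3, sum_range_id_mul_two]
      have h4 : 1 + 2 * ∑ j ∈ Icc 1 (t - 1), Nat.gcd j n ≤ 1 + t * (t - 1) := by omega
      have h5 : 1 + t * (t - 1) ≤ t ^ 2 := by
        obtain ⟨s, rfl⟩ : ∃ s, t = s + 1 := ⟨t - 1, by omega⟩
        simp only [Nat.add_sub_cancel]
        nlinarith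
      calc t * (1 + 2 * ∑ j ∈ Icc 1 (t - 1), Nat.gcd j n) ≤ t * t ^ 2 :=
            Nat.mul_le_mul_left _ (h4.trans h5)
        _ = t ^ 3 := by ring
  · have hdeg : ∀ x, x ≠ v → Even (T.dist v x) → T.degree x ≤ t - 1 := fun x hx hxe => by
      have := degree_lt T n t hn v ht x hx hxe
      omega
    refine aux T hT n t hn v ht (t - 1) hdeg ?_
    rcases Nat.eq_zero_or_pos t with h0 | h0
    · rw [h0]
      simpa using hp.pos
    · have htn : t < n ∨ t = n := by
        have : t ≤ n := by omega
        exact lt_or_eq_of_le this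
      have h1 : ∑ j ∈ Icc 1 (t - 1), Nat.gcd j n = t - 1 := by
        rw [sum_congr rfl (g := fun _ => 1)]
        · simp
        · intro j hj
          have h2 := mem_Icc.1 hj
          have h3 : Nat.Coprime n j := by
            rw [hp.coprime_iff_not_dvd]
            intro h4
            have := Nat.le_of_dvd (by omega) h4
            omega
          exact h3.symm
      rw [h1]
      obtain ⟨s, rfl⟩ : ∃ s, t = s + 1 := ⟨t - 1, by omega⟩
      simp only [Nat.add_sub_cancel]
      nlinarith

end Pool.Agent.Results.MP_2fbe9b_co.LargeStar
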